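import Mathlib

/-!
# Zagier's conjecture: data and known facts

The integer `n ≥ 2` is fixed.
-/

namespace Pool.Agent.N522.ZG

/-- Number fields with their polylogarithmic groups, `K`-groups and regulators, for a fixed `n`. -/
structure Theory where
  /-- number fields -/
  Fld : Type
  /-- `d_n` -/
  d : Fld → ℕ
  /-- `ζ_F(n)` -/
  zeta : Fld → ℝ
  /-- `π^{n d_{n-1}} d_F^{-1/2}` -/
  c : Fld → ℝ
  /-- `ker δ_n ⊗ ℚ` -/
  B : Fld → Type
  /-- `K_{2n-1}(F) ⊗ ℚ` -/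
  W : Fld → Type
  /-- group structure -/
  grpB : ∀ F, AddCommGroup (B F)
  /-- `ℚ`-structure -/
  modB : ∀ F, Module ℚ (B F)
  /-- group structure -/
  grpW : ∀ F, AddCommGroup (W F)
  /-- `ℚ`-structure -/
  modW : ∀ F, Module ℚ (W F)
  /-- `y ↦ (L_n(σ_j(y)))_j` -/
  Lval : ∀ F, B F →ₗ[ℚ] (Fin (d F) → ℝ)
  /-- the Borel regulator at `σ_1, …, σ_{d_n}`, divided by `i^{n-1}` so as to be real -/
  reg : ∀ F, W F →ₗ[ℚ] (Fin (d F) → ℝ)
  /-- the map `l_n` of Beilinson–Deligne and de Jeu -/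
  l : ∀ F, B F →ₗ[ℚ] W F
  /-- embeddings `E → F` -/
  Emb : Fld → Fld → Type
  /-- functoriality of `ker δ_n ⊗ ℚ` -/
  mapB : ∀ {E F : Fld}, Emb E F → B E →ₗ[ℚ] B F
  /-- functoriality of `K_{2n-1} ⊗ ℚ` -/
  mapW : ∀ {E F : Fld}, Emb E F → W E →ₗ[ℚ] W F
  /-- automorphisms -/
  Aut : Fld → Type
  /-- group structure -/
  grpAut : ∀ F, Group (Aut F)
  /-- action -/
  actB : ∀ {F : Fld}, Aut F → B F →ₗ[ℚ] B F
  /-- action -/
  actW : ∀ {F : Fld}, Aut F → W F →ₗ[ℚ] W F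
  /-- the fixed field of an automorphism -/
  fixed : ∀ {F : Fld}, Aut F → Fld
  /-- its inclusion -/
  incl : ∀ {F : Fld} (a : Aut F), Emb (fixed a) F

attribute [instance] Theory.grpB Theory.modB Theory.grpW Theory.modW Theory.grpAut

variable {T : Theory}

/-- Q1 for the field `F` (and the fixed `n`), in the form: the ratio of both sides is in `ℚ^×`. -/
def Q1 (F : T.Fld) : Prop :=
  ∃ (y : Fin (T.d F) → T.B F) (q : ℚ), q ≠ 0 ∧
    T.zeta F = (q : ℝ) * T.c F * (Matrix.of fun i j => T.Lval F (y i) j).det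

/-- Known facts. -/
structure Facts (T : Theory) : Prop where
  /-- Borel: finite dimension -/
  fin : ∀ F, Module.Finite ℚ (T.W F)
  /-- Borel: the dimension is `d_n` -/
  rank : ∀ F, Module.finrank ℚ (T.W F) = T.d F
  /-- Borel: the covolume -/
  borel : ∀ (F : T.Fld) (b : Module.Basis (Fin (T.d F)) ℚ (T.W F)), ∃ q : ℚ, q ≠ 0 ∧
    T.zeta F = (q : ℝ) * T.c F * (Matrix.of fun i j => T.reg F (b i) j).det
  /-- `ζ_F(n) ≠ 0` -/
  zeta_ne : ∀ F, T.zeta F ≠ 0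
  /-- de Jeu -/
  reg_l : ∀ (F : T.Fld) (y : T.B F), T.reg F (T.l F y) = T.Lval F y
  /-- naturality of `l_n` -/
  nat : ∀ (E F : T.Fld) (f : T.Emb E F) (y : T.B E), T.l F (T.mapB f y) = T.mapW f (T.l E y)
  /-- naturality of `l_n` -/
  natAut : ∀ (F : T.Fld) (a : T.Aut F) (y : T.B F), T.l F (T.actB a y) = T.actW a (T.l F y)
  act_one : ∀ (F : T.Fld) (w : T.W F), T.actW (1 : T.Aut F) w = w
  act_mul : ∀ (F : T.Fld) (a b : T.Aut F) (w : T.W F), T.actW (a * b) w = T.actW a (T.actW b w)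
  /-- embeddings induce injections on `K_{2n-1} ⊗ ℚ` (transfer) -/
  inj : ∀ (E F : T.Fld) (f : T.Emb E F), Function.Injective (T.mapW f)
  /-- Galois descent for `K_{2n-1} ⊗ ℚ` -/
  descent : ∀ (F : T.Fld) (a : T.Aut F) (w : T.W F), T.actW a w = w →
    w ∈ LinearMap.range (T.mapW (T.incl a))

end Pool.Agent.N522.ZG
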