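import Pool.Agent.N522.ZG.Defs

/-!
# Zagier's conjecture and norm relations
-/

namespace Pool.Agent.N522.ZG

variable {T : Theory}

/-- Q1 for `F` is the surjectivity of `l_n`. -/
theorem q1_iff (hT : Facts T) (F : T.Fld) : Q1 F ↔ Function.Surjective (T.l F) := by
  haveI := hT.fin F
  constructor
  · rintro ⟨y, q, -, h⟩
    have hdet : (Matrix.of fun i j => T.Lval F (y i) j).det ≠ 0 := by
      intro h0
      rw [h0, mul_zero] at h
      exact hT.zeta_ne F h
    have hli : LinearIndependent ℝ (Matrix.of fun i j => T.Lval F (y i) j).row :=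
      Matrix.linearIndependent_rows_of_det_ne_zero hdet
    have hli' : LinearIndependent ℚ (fun i => T.Lval F (y i)) := by
      have := hli.restrict_scalars' ℚ
      exact this
    have hli'' : LinearIndependent ℚ (fun i => T.l F (y i)) := by
      apply LinearIndependent.of_comp (T.reg F)
      convert hli' using 2
      exact hT.reg_l F _
    have hspan := hli''.span_eq_top_of_card_eq_finrank' (by
      rw [Fintype.card_fin, hT.rank])
    rw [← LinearMap.range_eq_top, eq_top_iff, ← hspan, Submodule.span_le]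
    rintro _ ⟨i, rfl⟩
    exact ⟨y i, rfl⟩
  · intro hs
    let b : Module.Basis (Fin (T.d F)) ℚ (T.W F) := Module.finBasisOfFinrankEq ℚ (T.W F) (hT.rank F)
    choose y hy using fun i => hs (b i)
    obtain ⟨q, hq, h⟩ := hT.borel F b
    refine ⟨y, q, hq, ?_⟩
    rw [h]
    congr 2
    ext i j
    simp only [Matrix.of_apply]
    rw [← hy i, hT.reg_l]

/-- If the `K`-group of `F` is spanned by the translates of the images of `K`-groups of fields for
which Q1 holds, then Q1 holds for `F`. -/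
theorem q1_of_span (hT : Facts T) (F : T.Fld) {ι : Type*} (E : ι → T.Fld)
    (f : ∀ i, T.Emb (E i) F) (hE : ∀ i, Q1 (E i))
    (h : ∀ w : T.W F, w ∈ Submodule.span ℚ {w' | ∃ (i : ι) (a : T.Aut F) (v : T.W (E i)),
      w' = T.actW a (T.mapW (f i) v)}) : Q1 F := by
  rw [q1_iff hT, ← LinearMap.range_eq_top, eq_top_iff]
  intro w _
  refine (Submodule.span_le.mpr ?_) (h w)
  rintro _ ⟨i, a, v, rfl⟩
  obtain ⟨y, rfl⟩ := (q1_iff hT (E i)).mp (hE i) v
  exact ⟨T.actB a (T.mapB (f i) y), by rw [hT.natAut, hT.nat]⟩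

/-- Fields with the same `d_n`. -/
theorem q1_of_d_eq (hT : Facts T) (E F : T.Fld) (f : T.Emb E F) (hd : T.d E = T.d F) (hE : Q1 E) :
    Q1 F := by
  haveI := hT.fin E
  haveI := hT.fin F
  rw [q1_iff hT] at *
  have hfr : Module.finrank ℚ (T.W E) = Module.finrank ℚ (T.W F) := by
    rw [hT.rank, hT.rank, hd]
  have hs : Function.Surjective (T.mapW f) :=
    (LinearMap.injective_iff_surjective_of_finrank_eq_finrank hfr).mp (hT.inj E F f)
  intro w
  obtain ⟨v, rfl⟩ := hs w
  obtain ⟨y, rfl⟩ := hE v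
  exact ⟨T.mapB f y, hT.nat E F f y⟩

theorem act_pow_mul (hT : Facts T) {F : T.Fld} (a b : T.Aut F) (w : T.W F) :
    T.actW (a * b) w = T.actW a (T.actW b w) := hT.act_mul F a b w

/-- The sum over the powers of `b` of an automorphism of order dividing `p` is fixed by `b`. -/
theorem act_sum_pow (hT : Facts T) {F : T.Fld} (b : T.Aut F) (p : ℕ) (hp : 0 < p)
    (hb : b ^ p = 1) (w : T.W F) :
    T.actW b (∑ i ∈ Finset.range p, T.actW (b ^ i) w) = ∑ i ∈ Finset.range p, T.actW (b ^ i) w := by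
  rw [map_sum]
  have h1 : ∀ i, T.actW b (T.actW (b ^ i) w) = T.actW (b ^ (i + 1)) w := fun i => by
    rw [pow_succ', hT.act_mul]
  simp only [h1]
  obtain ⟨m, rfl⟩ : ∃ m, p = m + 1 := ⟨p - 1, by omega⟩
  rw [Finset.sum_range_succ, hb, Finset.sum_range_succ']
  simp only [pow_zero]

/-- Reindexing of the sum over the powers of `b` by a unit modulo `p`. -/
theorem sum_pow_mul (p i : ℕ) (hp : p.Prime) (hi : ¬ p ∣ i) {M : Type*} [AddCommMonoid M]
    (f : ℕ → M) (hf : ∀ j k : ℕ, j % p = k % p → f j = f k) :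
    ∑ j ∈ Finset.range p, f (i * j) = ∑ j ∈ Finset.range p, f j := by
  haveI : NeZero p := ⟨hp.ne_zero⟩
  have hcop : Nat.Coprime i p := ((Nat.Prime.coprime_iff_not_dvd hp).mpr hi).symm
  refine Finset.sum_nbij' (fun j => (i * j) % p)
    (fun j => (((i : ZMod p)⁻¹ * (j : ZMod p)).val)) ?_ ?_ ?_ ?_ ?_
  · intro j _
    simp only [Finset.mem_range]
    exact Nat.mod_lt _ hp.pos
  · intro j _
    simp only [Finset.mem_range]
    exact ZMod.val_lt _
  · intro j hj
    rw [Finset.mem_range] at hj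
    simp only [ZMod.natCast_mod, Nat.cast_mul]
    rw [← mul_assoc, mul_comm ((i : ZMod p)⁻¹), ZMod.coe_mul_inv_eq_one i hcop, one_mul,
      ZMod.val_natCast, Nat.mod_eq_of_lt hj]
  · intro j hj
    rw [Finset.mem_range] at hj
    have h1 : ((i * (((i : ZMod p)⁻¹ * (j : ZMod p)).val) : ℕ) : ZMod p) = (j : ZMod p) := by
      rw [Nat.cast_mul, ZMod.natCast_zmod_val, ← mul_assoc, ZMod.coe_mul_inv_eq_one i hcop,
        one_mul]
    have h2 := congrArg ZMod.val h1
    rw [ZMod.val_natCast, ZMod.val_natCast, Nat.mod_eq_of_lt hj] at h2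
    exact h2
  · intro j _
    exact hf _ _ (by rw [Nat.mod_mod])

/-- Two commuting automorphisms of order dividing a prime `p`: every class is a combination of
classes fixed by one of `b`, `a b^j`. -/
theorem mem_of_fixed (hT : Facts T) {F : T.Fld} (p : ℕ) (hp : p.Prime) (a b : T.Aut F)
    (hab : a * b = b * a) (ha : a ^ p = 1) (hb : b ^ p = 1) (S : Submodule ℚ (T.W F))
    (hSb : ∀ w, T.actW b w = w → w ∈ S)
    (hSj : ∀ j : ℕ, j < p → ∀ w, T.actW (a * b ^ j) w = w → w ∈ S) (w : T.W F) : w ∈ S := by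
  have hcomm : Commute a b := hab
  have hpow : ∀ j : ℕ, (a * b ^ j) ^ p = 1 := fun j => by
    rw [(hcomm.pow_right j).mul_pow, ha, one_mul, ← pow_mul, mul_comm, pow_mul, hb, one_pow]
  -- the relation
  have hrel : ∑ j ∈ Finset.range p, ∑ i ∈ Finset.range p, T.actW ((a * b ^ j) ^ i) w =
      (p : ℚ) • w + ∑ i ∈ Finset.Ico 1 p, T.actW (a ^ i)
        (∑ j ∈ Finset.range p, T.actW (b ^ j) w) := by
    rw [Finset.sum_comm]
    rw [Finset.range_eq_Ico, Finset.sum_eq_sum_Ico_succ_bot hp.pos]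
    congr 1
    · simp only [pow_zero, hT.act_one]
      rw [Finset.sum_const, Nat.card_Ico, Nat.sub_zero, Nat.cast_smul_eq_nsmul]
    · apply Finset.sum_congr rfl
      intro i hi
      rw [Finset.mem_Ico] at hi
      have h1 : ∀ j, T.actW ((a * b ^ j) ^ i) w = T.actW (a ^ i) (T.actW (b ^ (i * j)) w) := by
        intro j
        rw [(hcomm.pow_right j).mul_pow, hT.act_mul, ← pow_mul, mul_comm j i]
      simp only [h1]
      rw [← map_sum, ← Finset.range_eq_Ico]
      congr 1
      refine sum_pow_mul p i hp (fun hd => ?_) (fun j => T.actW (b ^ j) w) ?_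
      · have := Nat.le_of_dvd (by omega) hd
        omega
      · intro j k hjk
        have : b ^ j = b ^ k := by
          rw [pow_eq_pow_mod j hb, pow_eq_pow_mod k hb, hjk]
        simp only [this]
  have hpne : (p : ℚ) ≠ 0 := by exact_mod_cast hp.ne_zero
  have hpw : (p : ℚ) • w ∈ S := by
    have h2 : (p : ℚ) • w = ∑ j ∈ Finset.range p, ∑ i ∈ Finset.range p,
        T.actW ((a * b ^ j) ^ i) w - ∑ i ∈ Finset.Ico 1 p, T.actW (a ^ i)
        (∑ j ∈ Finset.range p, T.actW (b ^ j) w) := by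
      rw [hrel]
      abel
    rw [h2]
    refine S.sub_mem (S.sum_mem fun j hj => ?_) (S.sum_mem fun i _ => ?_)
    · exact hSj j (Finset.mem_range.mp hj) _ (act_sum_pow hT _ p hp.pos (hpow j) w)
    · apply hSb
      have h3 : b * a ^ i = a ^ i * b := (hcomm.symm.pow_right i)
      rw [← hT.act_mul, h3, hT.act_mul, act_sum_pow hT b p hp.pos hb w]
  have := S.smul_mem ((p : ℚ)⁻¹) hpw
  rwa [smul_smul, inv_mul_cancel₀ hpne, one_smul] at this

/-- The norm relation for `C_p × C_p`. -/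
theorem q1_of_rank_two (hT : Facts T) (F : T.Fld) (p : ℕ) (hp : p.Prime) (a b : T.Aut F)
    (hab : a * b = b * a) (ha : a ^ p = 1) (hb : b ^ p = 1) (hQb : Q1 (T.fixed b))
    (hQ : ∀ j : ℕ, j < p → Q1 (T.fixed (a * b ^ j))) : Q1 F := by
  rw [q1_iff hT, ← LinearMap.range_eq_top, eq_top_iff]
  intro w _
  refine mem_of_fixed hT p hp a b hab ha hb _ ?_ ?_ w
  · intro v hv
    obtain ⟨u, rfl⟩ := hT.descent F b v hv
    obtain ⟨y, rfl⟩ := (q1_iff hT _).mp hQb u
    exact ⟨T.mapB (T.incl b) y, hT.nat _ _ _ y⟩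
  · intro j hj v hv
    obtain ⟨u, rfl⟩ := hT.descent F (a * b ^ j) v hv
    obtain ⟨y, rfl⟩ := (q1_iff hT _).mp (hQ j hj) u
    exact ⟨T.mapB (T.incl _) y, hT.nat _ _ _ y⟩

end Pool.Agent.N522.ZG
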